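import Pool.Agent.H474R4.QB.Main
import Pool.Agent.H474R3.AA.All
import Pool.Agent.H14R3.MB.Props
import Pool.Agent.H14R3.MB.T1
import Pool.Agent.H14R3.MB.T2a
import Pool.Agent.H14R3.MB.T2b
import Pool.Agent.H14R3.MB.T2
import Pool.Agent.H14R3.MB.T3
import Pool.Agent.H14R3.MB.T4
import Pool.Agent.H14R3.MB.T5
import Pool.Agent.H14R3.MB.T6
import Pool.Agent.H14R3.MB.T7
import Pool.Agent.H14R3.MB.T8
import Pool.Agent.H14R3.MB.FIN

set_option autoImplicit false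

/-! # Primes just above the powers of almost every base

The prime `p_(n+1)` of the problem file is `Nat.nth Nat.Prime n`. -/

open Finset MeasureTheory

namespace Pool.Agent.Results.MP_78b39f_nt.AlmostEveryBase

/-- `p` is a prime, the interval `[p, p + ε log p]` contains at least `m` primes, and every prime
`q` with `|q - p| ≤ Λ log p` lies in this interval -/
def IsoCluster (m : ℕ) (ε Λ : ℝ) (p : ℕ) : Prop :=
  p.Prime ∧ m ≤ ((Icc p (p + ⌊ε * Real.log p⌋₊)).filter Nat.Prime).card ∧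
    ∀ q : ℕ, q.Prime → |(q : ℝ) - p| ≤ Λ * Real.log p → p ≤ q ∧ (q : ℝ) ≤ p + ε * Real.log p

open Classical in
/-- For almost every base `α > 1` the `n` for which the interval from `α ^ (n + 1)` to
`α ^ (n + 1) + p_(n+1)` contains at least `M` primes beginning an isolated cluster of `m` primes
have upper density at least `1 / 4`. -/
theorem result :
    ∀ (M m : ℕ) (ε Λ : ℝ), 0 < ε → 0 < Λ → ∀ᵐ α : ℝ, 1 < α → ∀ η : ℝ, 0 < η →
      ∀ N₀ : ℕ, ∃ N : ℕ, N₀ ≤ N ∧ 1 ≤ N ∧ (1 / 4 - η) * N ≤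
        (((range N).filter (fun n => M ≤ ((Icc ⌈α ^ (n + 1)⌉₊
          ⌊α ^ (n + 1) + Nat.nth Nat.Prime n⌋₊).filter
            (fun p => IsoCluster m ε Λ p)).card)).card : ℝ) :=
  (Pool.Agent.H14R3.MB.t_FIN (Pool.Agent.H14R3.MB.t_T1 Pool.Agent.H474R4.QB.final)
    (Pool.Agent.H14R3.MB.t_T4 Pool.Agent.H474R3.AA.polyAA)
    (Pool.Agent.H14R3.MB.t_T2 Pool.Agent.H14R3.MB.t_T2a Pool.Agent.H14R3.MB.t_T2b)
    Pool.Agent.H14R3.MB.t_T3 Pool.Agent.H14R3.MB.t_T6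
    (Pool.Agent.H14R3.MB.t_T7 Pool.Agent.H14R3.MB.t_T5) Pool.Agent.H14R3.MB.t_T8).1

end Pool.Agent.Results.MP_78b39f_nt.AlmostEveryBase
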