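import Pool.Agent.H474R4.QB.Main
import Pool.Agent.H474R3.AA.All
import Pool.Agent.H14R3.MB.Props
import Pool.Agent.H14R3.MB.T1
import Pool.Agent.H14R3.MB.T2a
import Pool.Agent.H14R3.MB.T2b
import Pool.Agent.H14R3.MB.T2
import Pool.Agent.H14R3.MB.T3
import Pool.Agent.H14R3.MB.T4
import Pool.Agent.H14R3.MB.T5
import Pool.Agent.H14R3.MB.T6
import Pool.Agent.H14R3.MB.T7
import Pool.Agent.H14R3.MB.T8
import Pool.Agent.H14R3.MB.FIN

set_option autoImplicit false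

/-! # Prime-free intervals just above the powers of almost every base
 -/

open Finset MeasureTheory

namespace Pool.Agent.Results.MP_78b39f_nt.EmptyWindows

open Classical in
/-- For every `C` there is `δ > 0` such that for almost every base `α > 1` the `n` for which no
prime lies in the interval from `α ^ (n + 1)` to `α ^ (n + 1) + C log (α ^ (n + 1))` have upper
density at least `δ`. -/
theorem result :
    ∀ C : ℝ, ∃ δ : ℝ, 0 < δ ∧ ∀ᵐ α : ℝ, 1 < α → ∀ N₀ : ℕ, ∃ N : ℕ, N₀ ≤ N ∧ 1 ≤ N ∧ δ * N ≤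
      (((range N).filter (fun n => ∀ p : ℕ, p.Prime → α ^ (n + 1) ≤ p →
        (p : ℝ) ≤ α ^ (n + 1) + C * Real.log (α ^ (n + 1)) → False)).card : ℝ) :=
  (Pool.Agent.H14R3.MB.t_FIN (Pool.Agent.H14R3.MB.t_T1 Pool.Agent.H474R4.QB.final)
    (Pool.Agent.H14R3.MB.t_T4 Pool.Agent.H474R3.AA.polyAA)
    (Pool.Agent.H14R3.MB.t_T2 Pool.Agent.H14R3.MB.t_T2a Pool.Agent.H14R3.MB.t_T2b)
    Pool.Agent.H14R3.MB.t_T3 Pool.Agent.H14R3.MB.t_T6
    (Pool.Agent.H14R3.MB.t_T7 Pool.Agent.H14R3.MB.t_T5) Pool.Agent.H14R3.MB.t_T8).2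

end Pool.Agent.Results.MP_78b39f_nt.EmptyWindows
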