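import Pool.Agent.Erdos456.Iface
import Pool.Agent.Erdos456.Smooth2

set_option autoImplicit false

namespace Pool.Agent.Results.MP_78b39f_nt.NearPowers

open Finset Filter Topology

open Classical in
/-- primes `l ≤ J` such that `m l + 1 ≤ J + 1` is prime for some `1 ≤ m < K` -/
noncomputable def SS (K J : ℕ) : Finset ℕ :=
  (Icc 1 J).filter (fun l => l.Prime ∧ ∃ m, 1 ≤ m ∧ m < K ∧ m * l ≤ J ∧ (m * l + 1).Prime)

/-- a small common multiple of all `p - 1`, `p ≤ J` prime -/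
noncomputable def BB (K J : ℕ) : ℕ :=
  (∏ l ∈ (Icc 1 (Nat.sqrt J)).filter Nat.Prime, l ^ Nat.log l J) * primorial (J / K) * ∏ l ∈ SS K J, l

theorem mem_SS {K J l : ℕ} : l ∈ SS K J ↔ (1 ≤ l ∧ l ≤ J) ∧ l.Prime ∧
    ∃ m, 1 ≤ m ∧ m < K ∧ m * l ≤ J ∧ (m * l + 1).Prime := by
  classical
  unfold SS
  simp [mem_filter, mem_Icc]

theorem dvd_BB {K J p : ℕ} (hK : 1 ≤ K) (hp : p.Prime) (hpJ : p ≤ J) : p - 1 ∣ BB K J := by
  rw [Nat.dvd_iff_prime_pow_dvd_dvd]
  intro l k hl hk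
  rcases Nat.eq_zero_or_pos k with hk0 | hk0
  · subst hk0; simp
  have hp1 : 0 < p - 1 := by have := hp.two_le; omega
  have hle : l ^ k ≤ p - 1 := Nat.le_of_dvd hp1 hk
  have hlk : l ≤ l ^ k := Nat.le_self_pow hk0.ne' l
  by_cases hs : l ≤ Nat.sqrt J
  · have h1 : k ≤ Nat.log l J := Nat.le_log_of_pow_le hl.one_lt (by omega)
    have h2 : l ^ k ∣ l ^ Nat.log l J := pow_dvd_pow l h1
    have h3 : l ^ Nat.log l J ∣ ∏ l ∈ (Icc 1 (Nat.sqrt J)).filter Nat.Prime, l ^ Nat.log l J :=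
      Finset.dvd_prod_of_mem (fun l => l ^ Nat.log l J)
        (mem_filter.2 ⟨mem_Icc.2 ⟨hl.one_lt.le, hs⟩, hl⟩)
    exact (h2.trans h3).trans ((Dvd.intro _ rfl).trans (Dvd.intro _ rfl))
  · have hk1 : k = 1 := by
      by_contra hne
      have hk2 : 2 ≤ k := by omega
      have h1 : l ^ 2 ≤ l ^ k := Nat.pow_le_pow_right hl.pos hk2
      have h2 : J < l * l := Nat.sqrt_lt.1 (by omega)
      have h3 : l ^ 2 = l * l := by ring
      omega
    subst hk1
    rw [pow_one] at hk hle ⊢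
    by_cases hq : l ≤ J / K
    · have h3 : l ∣ primorial (J / K) := by
        unfold primorial
        exact Finset.dvd_prod_of_mem (fun p => p) (mem_filter.2 ⟨mem_range.2 (by omega), hl⟩)
      exact (h3.trans (Dvd.intro_left _ rfl)).trans (Dvd.intro _ rfl)
    · have h3 : l ∈ SS K J := by
        obtain ⟨m, hm⟩ := hk
        rw [mem_SS]
        refine ⟨⟨hl.one_lt.le, by omega⟩, hl, m, ?_, ?_, by rw [mul_comm]; omega, ?_⟩
        · rcases Nat.eq_zero_or_pos m with h | h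
          · subst h; omega
          · exact h
        · by_contra hmK
          have h4 : J / K < l := by omega
          have h5 : J < l * K := (Nat.div_lt_iff_lt_mul (by omega)).1 h4
          have h6 : l * K ≤ l * m := Nat.mul_le_mul_left l (by omega)
          omega
        · have h7 : m * l + 1 = p := by
            rw [mul_comm]; omega
          rw [h7]; exact hp
      exact (Finset.dvd_prod_of_mem (fun l => l) h3).trans (Dvd.intro_left _ rfl)

theorem A_pos (J : ℕ) : 0 < ∏ l ∈ (Icc 1 (Nat.sqrt J)).filter Nat.Prime, l ^ Nat.log l J :=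
  Finset.prod_pos fun l hl => Nat.pow_pos (mem_filter.1 hl).2.pos

theorem S_pos (K J : ℕ) : 0 < ∏ l ∈ SS K J, l :=
  Finset.prod_pos fun l hl => (mem_SS.1 hl).2.1.pos

theorem BB_pos (K J : ℕ) : 0 < BB K J :=
  Nat.mul_pos (Nat.mul_pos (A_pos J) (primorial_pos _)) (S_pos K J)

theorem log_BB (K J : ℕ) (hJ : 2 ≤ J) :
    Real.log (BB K J) ≤ (Nat.sqrt J : ℝ) * Real.log J + ((J / K : ℕ) : ℝ) * Real.log 4 +
      ((SS K J).card : ℝ) * Real.log J := by
  have hJr : (0 : ℝ) < J := by positivity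
  have e : ((BB K J : ℕ) : ℝ) =
      ((∏ l ∈ (Icc 1 (Nat.sqrt J)).filter Nat.Prime, l ^ Nat.log l J : ℕ) : ℝ) *
        ((primorial (J / K) : ℕ) : ℝ) * ((∏ l ∈ SS K J, l : ℕ) : ℝ) := by
    unfold BB
    push_cast
    ring
  have hA : (0 : ℝ) < ((∏ l ∈ (Icc 1 (Nat.sqrt J)).filter Nat.Prime, l ^ Nat.log l J : ℕ) : ℝ) := by
    exact_mod_cast A_pos J
  have hP : (0 : ℝ) < ((primorial (J / K) : ℕ) : ℝ) := by exact_mod_cast primorial_pos _
  have hS : (0 : ℝ) < ((∏ l ∈ SS K J, l : ℕ) : ℝ) := by exact_mod_cast S_pos K J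
  rw [e, Real.log_mul (by positivity) hS.ne', Real.log_mul hA.ne' hP.ne']
  have h1 : Real.log ((∏ l ∈ (Icc 1 (Nat.sqrt J)).filter Nat.Prime, l ^ Nat.log l J : ℕ) : ℝ) ≤
      (Nat.sqrt J : ℝ) * Real.log J := by
    have hb : (∏ l ∈ (Icc 1 (Nat.sqrt J)).filter Nat.Prime, l ^ Nat.log l J) ≤ J ^ (Nat.sqrt J) := by
      calc (∏ l ∈ (Icc 1 (Nat.sqrt J)).filter Nat.Prime, l ^ Nat.log l J)
          ≤ ∏ _l ∈ (Icc 1 (Nat.sqrt J)).filter Nat.Prime, J := by
            apply Finset.prod_le_prod'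
            intro l _
            exact Nat.pow_log_le_self l (by omega)
        _ = J ^ ((Icc 1 (Nat.sqrt J)).filter Nat.Prime).card := by rw [prod_const]
        _ ≤ J ^ (Nat.sqrt J) := by
            apply Nat.pow_le_pow_right (by omega)
            refine (card_filter_le _ _).trans ?_
            simp
    have hb' : ((∏ l ∈ (Icc 1 (Nat.sqrt J)).filter Nat.Prime, l ^ Nat.log l J : ℕ) : ℝ) ≤
        (J : ℝ) ^ (Nat.sqrt J) := by exact_mod_cast hb
    calc _ ≤ Real.log ((J : ℝ) ^ (Nat.sqrt J)) := Real.log_le_log hA hb'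
      _ = _ := by rw [Real.log_pow]
  have h2 : Real.log ((primorial (J / K) : ℕ) : ℝ) ≤ ((J / K : ℕ) : ℝ) * Real.log 4 := by
    have hb : ((primorial (J / K) : ℕ) : ℝ) ≤ (4 : ℝ) ^ (J / K) := by
      exact_mod_cast primorial_le_four_pow (J / K)
    calc _ ≤ Real.log ((4 : ℝ) ^ (J / K)) := Real.log_le_log hP hb
      _ = _ := by rw [Real.log_pow]
  have h3 : Real.log ((∏ l ∈ SS K J, l : ℕ) : ℝ) ≤ ((SS K J).card : ℝ) * Real.log J := by
    have hb : (∏ l ∈ SS K J, l) ≤ J ^ (SS K J).card := by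
      calc (∏ l ∈ SS K J, l) ≤ ∏ _l ∈ SS K J, J := by
            apply Finset.prod_le_prod'
            intro l hl
            exact (mem_SS.1 hl).1.2
        _ = J ^ (SS K J).card := by rw [prod_const]
    have hb' : ((∏ l ∈ SS K J, l : ℕ) : ℝ) ≤ (J : ℝ) ^ (SS K J).card := by exact_mod_cast hb
    calc _ ≤ Real.log ((J : ℝ) ^ (SS K J).card) := Real.log_le_log hS hb'
      _ = _ := by rw [Real.log_pow]
  linarith

theorem sum_GG : ∃ C : ℝ, 0 < C ∧ ∀ K : ℕ,
    ∑ m ∈ Ico 1 K, Pool.Agent.Erdos456.GG m ^ 2 * (m : ℝ)⁻¹ ≤ C * (1 + Real.log K) := by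
  obtain ⟨C, hC, h⟩ := Pool.Agent.Erdos456.sum_GG_sq_div_le
  refine ⟨C, hC, fun K => ?_⟩
  have h0 : (0 : ℝ) ≤ C * (1 + Real.log K) := by
    have := Real.log_natCast_nonneg K
    positivity
  rw [← ENNReal.ofReal_le_ofReal_iff h0]
  refine le_trans ?_ (h K)
  rw [ENNReal.ofReal_sum_of_nonneg (fun m _ => by positivity)]
  refine le_trans (le_of_eq ?_) (ENNReal.sum_le_tsum (Ico 1 K))
  apply Finset.sum_congr rfl
  intro m hm
  have := mem_Ico.1 hm
  rw [if_pos ⟨this.1, this.2.le⟩]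

theorem card_SS : ∃ D : ℝ, 0 < D ∧ ∀ K J : ℕ, K ≤ Nat.sqrt J → 4 ≤ J →
    ((SS K J).card : ℝ) ≤ D * (1 + Real.log K) * J / (Real.log J) ^ 2 := by
  classical
  obtain ⟨C, hC, hs⟩ := Pool.Agent.Erdos456.sieve_two'
  obtain ⟨C', hC', hG⟩ := sum_GG
  refine ⟨4 * C * C', by positivity, fun K J hK hJ => ?_⟩
  have hJr : (4 : ℝ) ≤ J := by exact_mod_cast hJ
  have hlogJ : 0 < Real.log J := Real.log_pos (by linarith)
  have hsub : SS K J ⊆ (Ico 1 K).biUnion fun m =>
      (Icc 1 (J / m)).filter (fun n => (1 * n + 0).Prime ∧ (m * n + 1).Prime) := by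
    intro l hl
    obtain ⟨h1, h2, m, h3, h4, h4', h5⟩ := mem_SS.1 hl
    refine mem_biUnion.2 ⟨m, mem_Ico.2 ⟨h3, h4⟩, mem_filter.2 ⟨mem_Icc.2 ⟨h1.1, ?_⟩, ?_, h5⟩⟩
    · rw [Nat.le_div_iff_mul_le (by omega), mul_comm]
      exact h4'
    · simpa using h2
  have h1 : ((SS K J).card : ℝ) ≤ ∑ m ∈ Ico 1 K,
      (((Icc 1 (J / m)).filter (fun n => (1 * n + 0).Prime ∧ (m * n + 1).Prime)).card : ℝ) := by
    have := (card_le_card hsub).trans card_biUnion_le
    exact_mod_cast this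
  have h2 : ∀ m ∈ Ico 1 K,
      (((Icc 1 (J / m)).filter (fun n => (1 * n + 0).Prime ∧ (m * n + 1).Prime)).card : ℝ) ≤
        4 * C * J / (Real.log J) ^ 2 * (Pool.Agent.Erdos456.GG m ^ 2 * (m : ℝ)⁻¹) := by
    intro m hm
    obtain ⟨hm1, hm2⟩ := mem_Ico.1 hm
    have hmr : (1 : ℝ) ≤ m := by exact_mod_cast hm1
    have hN : Nat.sqrt J + 1 ≤ J / m := by
      rw [Nat.le_div_iff_mul_le (by omega)]
      have h3 : m ≤ Nat.sqrt J - 1 := by omega
      have h4 : Nat.sqrt J * Nat.sqrt J ≤ J := Nat.sqrt_le J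
      have h5 : (Nat.sqrt J + 1) * m ≤ (Nat.sqrt J + 1) * (Nat.sqrt J - 1) := Nat.mul_le_mul_left _ h3
      have h6 : 1 ≤ Nat.sqrt J := by omega
      obtain ⟨t, ht⟩ : ∃ t, Nat.sqrt J = t + 1 := ⟨Nat.sqrt J - 1, by omega⟩
      rw [ht] at h4 h5 ⊢
      have h7 : (t + 1 + 1) * (t + 1 - 1) ≤ (t + 1) * (t + 1) := by
        rw [Nat.add_sub_cancel]; nlinarith
      omega
    have hs2 : 2 ≤ Nat.sqrt J := by
      rw [Nat.le_sqrt]; omega
    have hN2 : 2 ≤ J / m := by omega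
    have hNN : J ≤ (J / m) * (J / m) := by
      have h3 : J < (Nat.sqrt J + 1) * (Nat.sqrt J + 1) := Nat.lt_succ_sqrt J
      have h4 := Nat.mul_le_mul hN hN
      omega
    have hlog : Real.log J ≤ 2 * Real.log ((J / m : ℕ) : ℝ) := by
      have h3 : (J : ℝ) ≤ ((J / m : ℕ) : ℝ) * ((J / m : ℕ) : ℝ) := by exact_mod_cast hNN
      have h4 : (0 : ℝ) < ((J / m : ℕ) : ℝ) := by
        have : 0 < J / m := by omega
        exact_mod_cast this
      calc Real.log J ≤ Real.log (((J / m : ℕ) : ℝ) * ((J / m : ℕ) : ℝ)) :=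
            Real.log_le_log (by linarith) h3
        _ = 2 * Real.log ((J / m : ℕ) : ℝ) := by rw [Real.log_mul h4.ne' h4.ne']; ring
    have h3 := hs 1 0 m 1 (J / m) one_pos (by omega) (by simp) (by simp) (by simp) hN2
    have h4 : ((J / m : ℕ) : ℝ) ≤ (J : ℝ) / m := Nat.cast_div_le
    have hl2 : 0 < Real.log ((J / m : ℕ) : ℝ) := by linarith
    have e1 : (1 * m * (((1 * 1 : ℕ) : ℤ) - ((m * 0 : ℕ) : ℤ)).natAbs) = m := by simp
    rw [e1] at h3
    refine h3.trans ?_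
    have h5 : C * Pool.Agent.Erdos456.GG m ^ 2 * ((J / m : ℕ) : ℝ) / Real.log ((J / m : ℕ) : ℝ) ^ 2 ≤
        C * Pool.Agent.Erdos456.GG m ^ 2 * ((J : ℝ) / m) / (Real.log J / 2) ^ 2 := by
      have h6 : Real.log J / 2 ≤ Real.log ((J / m : ℕ) : ℝ) := by linarith
      gcongr
    refine h5.trans (le_of_eq ?_)
    field_simp
    ring
  refine (h1.trans (Finset.sum_le_sum h2)).trans ?_
  rw [← Finset.mul_sum]
  calc 4 * C * J / (Real.log J) ^ 2 * ∑ m ∈ Ico 1 K, Pool.Agent.Erdos456.GG m ^ 2 * (m : ℝ)⁻¹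
      ≤ 4 * C * J / (Real.log J) ^ 2 * (C' * (1 + Real.log K)) := by
        gcongr
        exact hG K
    _ = 4 * C * C' * (1 + Real.log K) * J / (Real.log J) ^ 2 := by ring

theorem fermat_dvd {p n : ℕ} (hp : p.Prime) (hn : p - 1 ∣ n - 1) (hn1 : 1 ≤ n) (a : ℕ) :
    (p : ℤ) ∣ (a : ℤ) ^ n - a := by
  have := Fact.mk hp
  have key : (((a : ℤ) ^ n - a : ℤ) : ZMod p) = 0 := by
    push_cast
    obtain ⟨k, hk⟩ := hn
    by_cases ha : (a : ZMod p) = 0
    · rw [ha, zero_pow (by omega)]; simp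
    · have h : (a : ZMod p) ^ (n - 1) = 1 := by
        rw [hk, pow_mul, ZMod.pow_card_sub_one_eq_one ha, one_pow]
      have h2 : (a : ZMod p) ^ n = a := by
        calc (a : ZMod p) ^ n = (a : ZMod p) ^ (n - 1 + 1) := by rw [Nat.sub_add_cancel hn1]
          _ = a := by rw [pow_succ, h, one_mul]
      rw [h2, sub_self]
  exact (ZMod.intCast_zmod_eq_zero_iff_dvd _ _).1 key

theorem ev_large (A : ℝ) : ∀ᶠ x : ℝ in atTop, 3 * Real.log x ^ 2 ≤ Real.sqrt x ∧
    3 ≤ Real.log (Real.log x) ∧ A * Real.log (Real.log x) ≤ Real.log x ∧ 4 ≤ x ∧ 4 ≤ Real.log x := by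
  have hl := Real.tendsto_log_atTop
  have h1 : ∀ᶠ x : ℝ in atTop, 3 * Real.log x ^ 2 ≤ Real.sqrt x := by
    have h := (isLittleO_log_rpow_rpow_atTop (s := 1 / 2) 2 (by norm_num)).bound
      (show (0 : ℝ) < 1 / 3 by norm_num)
    filter_upwards [h, eventually_ge_atTop (1 : ℝ)] with x hx hx1
    have hlx : 0 ≤ Real.log x := Real.log_nonneg hx1
    rw [Real.rpow_two, Real.norm_of_nonneg (by positivity), Real.norm_of_nonneg (by positivity),
      ← Real.sqrt_eq_rpow] at hx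
    linarith
  have h2 : ∀ᶠ x : ℝ in atTop, 3 ≤ Real.log (Real.log x) := (hl.comp hl).eventually_ge_atTop 3
  have h3 : ∀ᶠ x : ℝ in atTop, A * Real.log (Real.log x) ≤ Real.log x := by
    have h := Real.isLittleO_log_id_atTop.bound (show (0 : ℝ) < 1 / (|A| + 1) by positivity)
    filter_upwards [hl.eventually h, h2, hl.eventually_ge_atTop 0] with x hx hx2 hx3
    rw [Real.norm_of_nonneg (by linarith), id, Real.norm_of_nonneg hx3, div_mul_eq_mul_div, one_mul,
      le_div_iff₀ (by positivity)] at hx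
    have := le_abs_self A
    nlinarith
  filter_upwards [h1, h2, h3, eventually_ge_atTop (4 : ℝ), hl.eventually_ge_atTop 4] with x a b c d e
  exact ⟨a, b, c, d, e⟩

theorem logB_small : ∃ D : ℝ, 0 < D ∧ ∀ J : ℕ, 3 * Real.log J ^ 2 ≤ Real.sqrt J →
    3 ≤ Real.log (Real.log J) → (4 : ℝ) ≤ J → 4 ≤ Real.log J → ∃ K : ℕ, 1 ≤ K ∧
      Real.log ((1 + BB K J * J : ℕ) : ℝ) ≤ D * J * Real.log (Real.log J) / Real.log J := by
  obtain ⟨D₁, hD₁, hcard⟩ := card_SS
  refine ⟨3 + 3 * D₁, by positivity, fun J hsq hll hJ4 hlog4 => ?_⟩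
  have hJ0 : (0 : ℝ) < J := by linarith
  have hJnat : 4 ≤ J := by exact_mod_cast hJ4
  set l := Real.log J with hl
  set ll := Real.log l with hll'
  set K : ℕ := ⌈l⌉₊ with hKdef
  have hlK : l ≤ K := Nat.le_ceil l
  have hKl : (K : ℝ) < l + 1 := Nat.ceil_lt_add_one (by linarith)
  have hK1 : 1 ≤ K := by
    have : (1 : ℝ) ≤ K := by linarith
    exact_mod_cast this
  have hKr : (0 : ℝ) < K := by linarith
  have hsqrt : K ≤ Nat.sqrt J := by
    rw [Nat.le_sqrt]
    have h1 : (K : ℝ) ≤ Real.sqrt J := by nlinarith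
    have h2 : (K : ℝ) * K ≤ J := by
      calc (K : ℝ) * K ≤ Real.sqrt J * Real.sqrt J := by gcongr
        _ = J := Real.mul_self_sqrt hJ0.le
    exact_mod_cast h2
  refine ⟨K, hK1, ?_⟩
  have hB : (1 : ℝ) ≤ (BB K J : ℕ) := by exact_mod_cast BB_pos K J
  have h1 : Real.log ((1 + BB K J * J : ℕ) : ℝ) ≤ Real.log 2 + Real.log (BB K J) + l := by
    rw [hl, ← Real.log_mul (by norm_num) (by positivity), ← Real.log_mul (by positivity) hJ0.ne']
    apply Real.log_le_log (by positivity)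
    push_cast
    nlinarith
  have h2 := log_BB K J (by omega)
  have h3 := hcard K J hsqrt hJnat
  rw [← hl] at h2 h3
  have hlogK : Real.log K ≤ 1 + ll := by
    have h4 : (K : ℝ) ≤ 2 * l := by linarith
    calc Real.log K ≤ Real.log (2 * l) := Real.log_le_log hKr h4
      _ = Real.log 2 + ll := by rw [Real.log_mul (by norm_num) (by linarith)]
      _ ≤ 1 + ll := by
        have := Real.log_two_lt_d9
        linarith
  have h4 : ((SS K J).card : ℝ) * l ≤ D₁ * (3 * ll) * J / l := by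
    calc ((SS K J).card : ℝ) * l ≤ D₁ * (1 + Real.log K) * J / l ^ 2 * l := by gcongr
      _ = D₁ * (1 + Real.log K) * J / l := by field_simp
      _ ≤ D₁ * (3 * ll) * J / l := by
        gcongr
        linarith
  have h5 : (Nat.sqrt J : ℝ) ≤ Real.sqrt J := Real.nat_sqrt_le_real_sqrt
  have h6 : ((J / K : ℕ) : ℝ) ≤ (J : ℝ) / l := by
    refine Nat.cast_div_le.trans ?_
    gcongr
  have hl4 : Real.log 4 ≤ 2 := by
    have : Real.log 4 = 2 * Real.log 2 := by
      rw [show (4 : ℝ) = 2 ^ 2 by norm_num, Real.log_pow]; norm_num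
    have := Real.log_two_lt_d9
    linarith
  have hJl : 0 < (J : ℝ) / l := by positivity
  have h7 : ((J / K : ℕ) : ℝ) * Real.log 4 ≤ 2 * ((J : ℝ) / l) := by
    calc ((J / K : ℕ) : ℝ) * Real.log 4 ≤ (J : ℝ) / l * 2 := by
          have : 0 ≤ Real.log 4 := Real.log_nonneg (by norm_num)
          gcongr
      _ = _ := by ring
  have hs2 : 2 ≤ Real.sqrt J := by
    rw [show (2 : ℝ) = Real.sqrt 4 by
      rw [show (4 : ℝ) = 2 ^ 2 by norm_num, Real.sqrt_sq (by norm_num)]]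
    exact Real.sqrt_le_sqrt hJ4
  have h8 : Real.log 2 + l + Real.sqrt J * l ≤ (J : ℝ) / l := by
    rw [le_div_iff₀ (by linarith)]
    have h9 : Real.sqrt J * Real.sqrt J = J := Real.mul_self_sqrt hJ0.le
    have h10 : Real.log 2 ≤ Real.sqrt J * l := by
      have := Real.log_two_lt_d9
      nlinarith
    have h11 : l ≤ Real.sqrt J * l := by nlinarith
    calc (Real.log 2 + l + Real.sqrt J * l) * l ≤ (3 * (Real.sqrt J * l)) * l := by gcongr; linarith
      _ = Real.sqrt J * (3 * l ^ 2) := by ring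
      _ ≤ Real.sqrt J * Real.sqrt J := by gcongr
      _ = J := h9
  have h12 : (Nat.sqrt J : ℝ) * l ≤ Real.sqrt J * l := by gcongr
  have h13 : (J : ℝ) / l ≤ J / l * ll := by nlinarith
  have h14 : Real.log ((1 + BB K J * J : ℕ) : ℝ) ≤ 3 * (J / l) + D₁ * (3 * ll) * J / l := by
    linarith
  calc Real.log ((1 + BB K J * J : ℕ) : ℝ) ≤ 3 * (J / l) + D₁ * (3 * ll) * J / l := h14
    _ ≤ 3 * (J / l * ll) + D₁ * (3 * ll) * J / l := by linarith
    _ = (3 + 3 * D₁) * J * ll / l := by ring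

/-- For infinitely many `n`, no prime other than (possibly) `a ^ n - a + 1` and `a ^ n - a - 1` is
within `H - a` of `a ^ n`, for all bases `a ≥ 2` at once, where
`H = c log n log log n / log log log n`. -/
theorem result : ∃ c : ℝ, 0 < c ∧ ∀ N₀ : ℕ, ∃ n : ℕ, N₀ ≤ n ∧ ∀ a : ℕ, 2 ≤ a → ∀ q : ℕ, q.Prime →
    (a : ℝ) + |(q : ℝ) - (a : ℝ) ^ n| ≤
      c * Real.log n * Real.log (Real.log n) / Real.log (Real.log (Real.log n)) →
    (q : ℤ) = (a : ℤ) ^ n - a + 1 ∨ (q : ℤ) = (a : ℤ) ^ n - a - 1 := by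
  obtain ⟨D, hD, hB⟩ := logB_small
  refine ⟨min 1 (1 / (2 * D)), by positivity, fun N₀ => ?_⟩
  obtain ⟨J, hJN, hsq, hll, hDl, hJ4, hlog4⟩ : ∃ J : ℕ, N₀ + 2 ≤ J ∧
      3 * Real.log J ^ 2 ≤ Real.sqrt J ∧ 3 ≤ Real.log (Real.log J) ∧
      D * Real.log (Real.log J) ≤ Real.log J ∧ (4 : ℝ) ≤ J ∧ 4 ≤ Real.log J := by
    have h := (tendsto_natCast_atTop_atTop (R := ℝ)).eventually (ev_large D)
    obtain ⟨J, h1, h2⟩ := ((eventually_ge_atTop (N₀ + 2)).and h).exists
    exact ⟨J, h1, h2.1, h2.2.1, h2.2.2.1, h2.2.2.2.1, h2.2.2.2.2⟩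
  obtain ⟨K, hK, hlogn⟩ := hB J hsq hll hJ4 hlog4
  have hBp := BB_pos K J
  set n : ℕ := 1 + BB K J * J with hn
  have hnJ : J + 1 ≤ n := by
    rw [hn]; nlinarith
  have hJ0 : (0 : ℝ) < J := by linarith
  -- the size of `H`
  have hH : min 1 (1 / (2 * D)) * Real.log n * Real.log (Real.log n) /
      Real.log (Real.log (Real.log n)) ≤ J := by
    set c := min 1 (1 / (2 * D)) with hc
    have hc0 : 0 < c := by positivity
    have hc1 : c ≤ 1 := min_le_left _ _
    have hc2 : c ≤ 1 / (2 * D) := min_le_right _ _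
    set l := Real.log J with hl
    set ll := Real.log l with hll'
    set L := Real.log n with hL
    have hnJr : (J : ℝ) ≤ n := by
      have : J ≤ n := by omega
      exact_mod_cast this
    have hlL : l ≤ L := Real.log_le_log hJ0 hnJr
    set M := Real.log L with hM
    have hllM : ll ≤ M := Real.log_le_log (by linarith) hlL
    set P := Real.log M with hP
    have hP1 : 1 ≤ P := by
      have h1 : Real.log 3 ≤ P := Real.log_le_log (by norm_num) (by linarith)
      have h2 : 1 ≤ Real.log 3 := by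
        rw [Real.le_log_iff_exp_le (by norm_num)]
        have := Real.exp_one_lt_d9
        linarith
      linarith
    have hL0 : 0 < L := by linarith
    have hM0 : 0 < M := by linarith
    rcases le_or_gt L (Real.sqrt J) with hcase | hcase
    · have h1 : M ≤ L := (Real.log_le_self hL0.le)
      calc c * L * M / P ≤ c * L * M := div_le_self (by positivity) hP1
        _ ≤ 1 * L * L := by gcongr
        _ ≤ 1 * Real.sqrt J * Real.sqrt J := by gcongr
        _ = J := by rw [one_mul]; exact Real.mul_self_sqrt hJ0.le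
    · have hX : D * J * ll / l ≤ J := by
        rw [div_le_iff₀ (by linarith)]
        nlinarith
      have hLJ : L ≤ J := hlogn.trans hX
      have hMl : M ≤ l := Real.log_le_log hL0 hLJ
      have hMl2 : l / 2 ≤ M := by
        have h1 : Real.log (Real.sqrt J) = l / 2 := Real.log_sqrt hJ0.le
        rw [← h1]
        exact Real.log_le_log (Real.sqrt_pos.2 hJ0) hcase.le
      have hPll : ll / 2 ≤ P := by
        have h1 : Real.log (Real.sqrt l) = ll / 2 := Real.log_sqrt (by linarith)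
        rw [← h1]
        apply Real.log_le_log (Real.sqrt_pos.2 (by linarith))
        refine le_trans ?_ hMl2
        rw [Real.sqrt_le_left (by linarith)]
        nlinarith
      have hll0 : 0 < ll := by linarith
      calc c * L * M / P ≤ 1 / (2 * D) * (D * J * ll / l) * l / (ll / 2) := by gcongr
        _ = J := by
          have : l ≠ 0 := by linarith
          field_simp
  refine ⟨n, by omega, fun a ha q hq hqa => ?_⟩
  have hqaJ : (a : ℝ) + |(q : ℝ) - (a : ℝ) ^ n| ≤ J := hqa.trans hH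
  by_contra hne
  push Not at hne
  obtain ⟨hne1, hne2⟩ := hne
  set e : ℤ := (q : ℤ) - ((a : ℤ) ^ n - a) with he
  have heJ : |e| ≤ (J : ℤ) := by
    have h1 : |((e : ℤ) : ℝ)| ≤ (J : ℝ) := by
      have h2 : ((e : ℤ) : ℝ) = ((q : ℝ) - (a : ℝ) ^ n) + a := by
        rw [he]; push_cast; ring
      rw [h2]
      have h3 := abs_add_le ((q : ℝ) - (a : ℝ) ^ n) (a : ℝ)
      rw [abs_of_nonneg (Nat.cast_nonneg a : (0 : ℝ) ≤ a)] at h3
      linarith
    have h4 : ((|e| : ℤ) : ℝ) ≤ ((J : ℤ) : ℝ) := by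
      push_cast
      exact h1
    exact_mod_cast h4
  have hp : ∃ p : ℕ, p.Prime ∧ p ≤ J ∧ (p : ℤ) ∣ e := by
    by_cases he0 : e = 0
    · exact ⟨2, Nat.prime_two, by omega, by rw [he0]; exact dvd_zero _⟩
    · have h1 : e.natAbs ≠ 1 := by
        intro h
        rcases Int.natAbs_eq e with h2 | h2
        · rw [h] at h2; apply hne1; push_cast at h2; omega
        · rw [h] at h2; apply hne2; push_cast at h2; omega
      refine ⟨e.natAbs.minFac, Nat.minFac_prime h1, ?_, ?_⟩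
      · have h2 : e.natAbs.minFac ≤ e.natAbs := Nat.minFac_le (Int.natAbs_pos.2 he0)
        have h3 : e.natAbs ≤ J := by
          have : ((e.natAbs : ℕ) : ℤ) ≤ (J : ℤ) := by rw [Int.natCast_natAbs]; exact heJ
          exact_mod_cast this
        omega
      · exact Int.natCast_dvd.2 (Nat.minFac_dvd _)
  obtain ⟨p, hpp, hpJ, hpe⟩ := hp
  have hdiv : p - 1 ∣ n - 1 := by
    have h1 : n - 1 = BB K J * J := by rw [hn]; omega
    rw [h1]
    exact (dvd_BB hK hpp hpJ).trans (Dvd.intro _ rfl)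
  have h1 := fermat_dvd hpp hdiv (by omega) a
  have h2 : (p : ℤ) ∣ (q : ℤ) := by
    have : (q : ℤ) = e + ((a : ℤ) ^ n - a) := by rw [he]; ring
    rw [this]
    exact dvd_add hpe h1
  have h3 : p ∣ q := by exact_mod_cast h2
  have h4 : p = q := (Nat.prime_dvd_prime_iff_eq hpp hq).1 h3
  have h5 : (2 : ℝ) ^ n ≤ (a : ℝ) ^ n := by
    have : (2 : ℝ) ≤ a := by exact_mod_cast ha
    gcongr
  have h6 : (2 : ℝ) * J < (2 : ℝ) ^ n := by
    have h8 : (2 : ℕ) ^ (J + 1) = 2 * 2 ^ J := by ring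
    have h9 : J < 2 ^ J := Nat.lt_two_pow_self
    have h10 : 2 * J < 2 ^ (J + 1) := by omega
    have h11 : (2 : ℕ) ^ (J + 1) ≤ 2 ^ n := Nat.pow_le_pow_right (by omega) hnJ
    have h12 : 2 * J < 2 ^ n := lt_of_lt_of_le h10 h11
    exact_mod_cast h12
  have h7 : (q : ℝ) ≤ J := by rw [← h4]; exact_mod_cast hpJ
  have h8 := (abs_le.1 (le_refl |(q : ℝ) - (a : ℝ) ^ n|)).1
  have ha2 : (2 : ℝ) ≤ a := by exact_mod_cast ha
  linarith

end Pool.Agent.Results.MP_78b39f_nt.NearPowers
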